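import Mathlib
import Pool.Agent.N236.UR.Stm4

set_option autoImplicit false

/-!
# Project UR part 3, leaf SC: divided difference of a power under one-units
-/

namespace Pool.Agent.N278.UR.SC

open Pool.Agent.N236.UR Finset

variable {L : Type} [Field L] (v : AbsoluteValue L ℝ)

/-- `u` and `w` agree to first order -/
def Nr (u w : L) : Prop := v (u - w) < v w

variable {v}

theorem Nr.pos {u w : L} (h : Nr v u w) : 0 < v w := lt_of_le_of_lt (v.nonneg _) h

theorem Nr.ne {u w : L} (h : Nr v u w) : w ≠ 0 := v.pos_iff.1 h.pos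

theorem Nr.rfl' {u : L} (h : u ≠ 0) : Nr v u u := by
  unfold Nr
  rw [sub_self, v.map_zero]
  exact v.pos h

variable (hv : ∀ x y : L, v (x + y) ≤ max (v x) (v y))

include hv

theorem Nr.veq {u w : L} (h : Nr v u w) : v u = v w := by
  apply le_antisymm
  · have h1 := hv (u - w) w
    rw [sub_add_cancel] at h1
    exact h1.trans (max_le (le_of_lt h) le_rfl)
  · have h1 := hv (w - u) u
    rw [sub_add_cancel, v.map_sub w u] at h1
    rcases le_max_iff.1 h1 with h2 | h2
    · exact absurd h2 (not_le.2 h)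
    · exact h2

theorem Nr.symm {u w : L} (h : Nr v u w) : Nr v w u := by
  have h1 := h.veq hv
  unfold Nr at *
  rw [v.map_sub, h1]
  exact h

theorem Nr.trans {u w z : L} (h : Nr v u w) (h' : Nr v w z) : Nr v u z := by
  have h1 := h'.veq hv
  unfold Nr at *
  have h2 := hv (u - w) (w - z)
  rw [sub_add_sub_cancel] at h2
  refine lt_of_le_of_lt h2 (max_lt ?_ h')
  rw [← h1]
  exact h

theorem Nr.mul {u w u' w' : L} (h : Nr v u w) (h' : Nr v u' w') : Nr v (u * u') (w * w') := by
  have h1 := h.veq hv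
  have h0 := h.pos
  have h0' := h'.pos
  unfold Nr at *
  have e : u * u' - w * w' = u * (u' - w') + (u - w) * w' := by ring
  rw [e, v.map_mul w w']
  refine lt_of_le_of_lt (hv _ _) (max_lt ?_ ?_)
  · rw [v.map_mul, h1]
    exact mul_lt_mul_of_pos_left h' h0
  · rw [v.map_mul]
    exact mul_lt_mul_of_pos_right h h0'

theorem Nr.inv {u w : L} (h : Nr v u w) : Nr v u⁻¹ w⁻¹ := by
  have hu : u ≠ 0 := (h.symm hv).ne
  have hw : w ≠ 0 := h.ne
  have h1 := h.symm hv
  have h0 := h.pos
  have h0' := h1.pos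
  unfold Nr at *
  have e : u⁻¹ - w⁻¹ = (w - u) * (u⁻¹ * w⁻¹) := by
    field_simp
  rw [e, v.map_mul, v.map_mul, map_inv₀, map_inv₀]
  calc v (w - u) * ((v u)⁻¹ * (v w)⁻¹) < v u * ((v u)⁻¹ * (v w)⁻¹) :=
        mul_lt_mul_of_pos_right h1 (by positivity)
    _ = (v w)⁻¹ := by field_simp

theorem Nr.pow {u w : L} (h : Nr v u w) (n : ℕ) : Nr v (u ^ n) (w ^ n) := by
  induction n with
  | zero =>
    rw [pow_zero, pow_zero]
    exact Nr.rfl' one_ne_zero
  | succ n ih =>
    rw [pow_succ, pow_succ]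
    exact ih.mul hv h

/-- a smaller term does not matter -/
theorem nr_sub {a b : L} (h : v b < v a) : Nr v (a - b) a := by
  unfold Nr
  rw [sub_sub_cancel_left, v.map_neg]
  exact h

theorem nr_sub' {a b : L} (h : v a < v b) : Nr v (a - b) (-b) := by
  unfold Nr
  rw [sub_neg_eq_add, sub_add_cancel, v.map_neg]
  exact h

theorem div_nr {F G X Y Z W : L} (hF : F * Z = X) (hG : G * W = Y) (h1 : Nr v X Y)
    (h2 : Nr v Z W) : Nr v F G := by
  have hZ : Z ≠ 0 := (h2.symm hv).ne
  have hW : W ≠ 0 := h2.ne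
  have e1 : F = X * Z⁻¹ := by rw [← hF]; field_simp
  have e2 : G = Y * W⁻¹ := by rw [← hG]; field_simp
  rw [e1, e2]
  exact h1.mul hv (h2.inv hv)

omit hv in
theorem FF_mul (l : ℕ) (A B : L) : FF l A B * (A - B) = A ^ l - B ^ l :=
  (Commute.all A B).geom_sum₂_mul l

/-- the divided difference at two close points -/
theorem close {l : ℕ} (hg : GoodL v l) {A B : L} (hB : B ≠ 0) (hAB : A ≠ B)
    (h : v (A - B) < v B) : Nr v (FF l A B) ((l : L) * B ^ (l - 1)) := by
  obtain ⟨h2, hl0, h3, h4⟩ := hg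
  have hB0 : 0 < v B := v.pos hB
  have hx1 : A / B ≠ 1 := by
    intro he
    apply hAB
    rw [div_eq_one_iff_eq hB] at he
    exact he
  have hx2 : v (A / B - 1) < 1 := by
    have e : A / B - 1 = (A - B) / B := by field_simp
    rw [e, map_div₀, div_lt_one hB0]
    exact h
  have h5 : Nr v ((A / B) ^ l - 1) ((l : L) * (A / B - 1)) := h4 _ hx2 hx1
  have h6 : Nr v (B ^ l) (B ^ l) := Nr.rfl' (pow_ne_zero _ hB)
  have h7 := h6.mul hv h5
  have e1 : B ^ l * ((A / B) ^ l - 1) = A ^ l - B ^ l := by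
    rw [div_pow]
    field_simp
  have e2 : B ^ l * ((l : L) * (A / B - 1)) = (l : L) * B ^ (l - 1) * (A - B) := by
    have e3 : B ^ l = B ^ (l - 1) * B := by
      rw [← pow_succ]
      congr 1
      omega
    rw [e3]
    field_simp
  rw [e1, e2] at h7
  exact div_nr hv (FF_mul l A B) rfl h7 (Nr.rfl' (sub_ne_zero.2 hAB))

theorem main {l : ℕ} (hg : GoodL v l) {A B δ : L} (hδ : v δ < 1) (hAB : A ≠ B)
    (hAB' : A * (1 + δ) ≠ B) : Nr v (FF l (A * (1 + δ)) B) (FF l A B) := by
  have hAδ : v (A * (1 + δ) - A) = v A * v δ := by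
    have e : A * (1 + δ) - A = A * δ := by ring
    rw [e, v.map_mul]
  have hl : l ≠ 0 := by have := hg.1; omega
  have hA' : A ≠ 0 → Nr v (A * (1 + δ)) A := by
    intro hA
    unfold Nr
    rw [hAδ]
    have h1 : 0 < v A := v.pos hA
    nlinarith
  have hvA' : v (A * (1 + δ)) = v A := by
    by_cases hA : A = 0
    · rw [hA, zero_mul]
    · exact (hA' hA).veq hv
  have hD : A - B ≠ 0 := sub_ne_zero.2 hAB
  have hD' : A * (1 + δ) - B ≠ 0 := sub_ne_zero.2 hAB'
  rcases lt_trichotomy (v A) (v B) with hlt | heq | hgt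
  · have hB0 : 0 < v B := lt_of_le_of_lt (v.nonneg _) hlt
    have key : ∀ C : L, v C < v B → Nr v (C - B) (-B) ∧ Nr v (C ^ l - B ^ l) (-B ^ l) := by
      intro C hC
      refine ⟨nr_sub' hv hC, nr_sub' hv ?_⟩
      rw [v.map_pow, v.map_pow]
      exact pow_lt_pow_left₀ hC (v.nonneg _) hl
    obtain ⟨k1, k2⟩ := key A hlt
    obtain ⟨k3, k4⟩ := key (A * (1 + δ)) (by rw [hvA']; exact hlt)
    exact div_nr hv (FF_mul l _ B) (FF_mul l A B) (k4.trans hv (k2.symm hv))
      (k3.trans hv (k1.symm hv))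
  · have hB : B ≠ 0 := by
      rintro rfl
      rw [v.map_zero] at heq
      exact hAB (v.eq_zero.1 heq)
    have hA : A ≠ 0 := by
      rintro rfl
      rw [v.map_zero] at heq
      exact hB (v.eq_zero.1 heq.symm)
    have hB0 : 0 < v B := v.pos hB
    have hle : v (A - B) ≤ v B := by
      have := hv A (-B)
      rw [← sub_eq_add_neg, v.map_neg, heq, max_self] at this
      exact this
    rcases hle.lt_or_eq with hc | hc
    · have h1 := close hv hg hB hAB hc
      have h2 : v (A * (1 + δ) - B) < v B := by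
        have h3 := hv (A * (1 + δ) - A) (A - B)
        rw [sub_add_sub_cancel] at h3
        refine lt_of_le_of_lt h3 (max_lt ?_ hc)
        rw [hAδ, heq]
        nlinarith
      exact (close hv hg hB hAB' h2).trans hv (h1.symm hv)
    · have hx1 : v (A / B) = 1 := by rw [map_div₀, heq, div_self hB0.ne']
      have hx2 : v (A / B - 1) = 1 := by
        have e : A / B - 1 = (A - B) / B := by field_simp
        rw [e, map_div₀, hc, div_self hB0.ne']
      have h1 := hg.2.2.1 _ hx1 hx2
      have h2 : v (A ^ l - B ^ l) = v B ^ l := by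
        have e1 : A ^ l - B ^ l = B ^ l * ((A / B) ^ l - 1) := by
          rw [div_pow]
          field_simp
        rw [e1, v.map_mul, h1, v.map_pow, mul_one]
      have h3 : Nr v ((A * (1 + δ)) ^ l) (A ^ l) := (hA' hA).pow hv l
      refine div_nr hv (FF_mul l _ B) (FF_mul l A B) ?_ ?_
      · unfold Nr at *
        rw [sub_sub_sub_cancel_right, h2]
        rw [v.map_pow A, heq] at h3
        exact h3
      · unfold Nr
        rw [sub_sub_sub_cancel_right, hAδ, hc, heq]
        nlinarith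
  · have hA : A ≠ 0 := by
      rintro rfl
      rw [v.map_zero] at hgt
      exact absurd hgt (not_lt.2 (v.nonneg _))
    have key : ∀ C : L, v B < v C → Nr v (C - B) C ∧ Nr v (C ^ l - B ^ l) (C ^ l) := by
      intro C hC
      refine ⟨nr_sub hv hC, nr_sub hv ?_⟩
      rw [v.map_pow, v.map_pow]
      exact pow_lt_pow_left₀ hC (v.nonneg _) hl
    obtain ⟨k1, k2⟩ := key A hgt
    obtain ⟨k3, k4⟩ := key (A * (1 + δ)) (by rw [hvA']; exact hgt)
    have k5 := hA' hA
    exact div_nr hv (FF_mul l _ B) (FF_mul l A B)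
      ((k4.trans hv (k5.pow hv l)).trans hv (k2.symm hv))
      ((k3.trans hv k5).trans hv (k1.symm hv))

omit hv in
theorem t_sc : S_SC := by
  intro L _ v l hv hg A B δ hδ hAB hAB'
  exact main hv hg hδ hAB hAB'

end Pool.Agent.N278.UR.SC
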